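import Pool.Agent.Helper18.PS.St2

/-!
# Project PS (MP_4afa08_nt), module TOL: the numbers with an odd sum of divisors
-/

set_option autoImplicit false

namespace Pool.Agent.Helper99.PS

open Finset
open Nat (totient)
open Pool.Agent.Helper18.PS

private theorem sq_of_odd {k : ℕ} (hk : Odd k) (hs : Odd (ArithmeticFunction.sigma 1 k)) :
    ∃ r, k = r ^ 2 := by
  by_contra hc
  push Not at hc
  have hk0 : k ≠ 0 := by
    rintro rfl
    simp at hk
  have h1 : (∑ d ∈ k.divisors, (d : ZMod 2)) = 0 := by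
    refine Finset.sum_involution (fun d _ => k / d) ?_ ?_ ?_ ?_
    · intro d hd
      have hdk := Nat.dvd_of_mem_divisors hd
      have o1 : Odd d := Odd.of_dvd_nat hk hdk
      have o2 : Odd (k / d) := Odd.of_dvd_nat hk (Nat.div_dvd_of_dvd hdk)
      rw [(ZMod.natCast_eq_one_iff_odd).2 o1, (ZMod.natCast_eq_one_iff_odd).2 o2]
      decide
    · intro d hd _ he
      have hdk := Nat.dvd_of_mem_divisors hd
      apply hc d
      have := Nat.div_mul_cancel hdk
      rw [he] at this
      rw [← this]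
      ring
    · intro d hd
      have hdk := Nat.dvd_of_mem_divisors hd
      exact Nat.mem_divisors.2 ⟨Nat.div_dvd_of_dvd hdk, hk0⟩
    · intro d hd
      exact Nat.div_div_self (Nat.dvd_of_mem_divisors hd) hk0
  have h2 : ((ArithmeticFunction.sigma 1 k : ℕ) : ZMod 2) = 0 := by
    rw [ArithmeticFunction.sigma_one_apply]
    push_cast
    exact h1
  rw [(ZMod.natCast_eq_one_iff_odd).2 hs] at h2
  exact one_ne_zero h2

private theorem form {m : ℕ} (hm : 1 ≤ m) (hs : Odd (sg m)) : ∃ s, m = s ^ 2 ∨ m = 2 * s ^ 2 := by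
  obtain ⟨a, k, hk, rfl⟩ := Nat.exists_eq_two_pow_mul_odd (n := m) (by omega)
  have hc : Nat.Coprime (2 ^ a) k := by
    apply Nat.Coprime.pow_left
    exact (Nat.coprime_two_left).2 hk
  have h1 : sg (2 ^ a * k) = ArithmeticFunction.sigma 1 (2 ^ a) * ArithmeticFunction.sigma 1 k :=
    ArithmeticFunction.isMultiplicative_sigma.map_mul_of_coprime hc
  rw [h1] at hs
  obtain ⟨r, rfl⟩ := sq_of_odd hk (Nat.odd_mul.1 hs).2
  rcases Nat.even_or_odd' a with ⟨b, rfl | rfl⟩
  · exact ⟨2 ^ b * r, Or.inl (by ring)⟩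
  · exact ⟨2 ^ b * r, Or.inr (by ring)⟩

open Classical in
/-- TOL. -/
theorem hTOL : StTOL := by
  intro N
  have hsub : (Icc 1 N).filter (fun m => Odd (sg m)) ⊆
      ((Icc 1 (Nat.sqrt N)).image (fun s => s ^ 2)) ∪ ((Icc 1 (Nat.sqrt N)).image (fun s => 2 * s ^ 2)) := by
    intro m hm
    rw [mem_filter, mem_Icc] at hm
    obtain ⟨s, hs⟩ := form hm.1.1 hm.2
    have hs0 : 1 ≤ s := by
      rcases Nat.eq_zero_or_pos s with h | h
      · subst h
        simp at hs
        omega
      · exact h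
    have hsN : s ≤ Nat.sqrt N := by
      rw [Nat.le_sqrt']
      rcases hs with h | h
      · rw [← h]; exact hm.1.2
      · have := hm.1.2
        omega
    rw [mem_union, mem_image, mem_image]
    rcases hs with h | h
    · exact Or.inl ⟨s, mem_Icc.2 ⟨hs0, hsN⟩, h.symm⟩
    · exact Or.inr ⟨s, mem_Icc.2 ⟨hs0, hsN⟩, h.symm⟩
  have h1 : ((Icc 1 N).filter (fun m => Odd (sg m))).card ≤ Nat.sqrt N + Nat.sqrt N := by
    refine (card_le_card hsub).trans ((card_union_le _ _).trans ?_)
    refine Nat.add_le_add (card_image_le.trans ?_) (card_image_le.trans ?_) <;> simp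
  have h2 : (Nat.sqrt N : ℝ) ≤ Real.sqrt N := Real.nat_sqrt_le_real_sqrt
  have h3 : (((Icc 1 N).filter (fun m => Odd (sg m))).card : ℝ) ≤ (Nat.sqrt N : ℝ) + Nat.sqrt N := by
    exact_mod_cast h1
  linarith

end Pool.Agent.Helper99.PS
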